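import Pool.Agent.Work.MP_db9399_oc.Interface
import Pool.Agent.Work.MP_db9399_cg_helper68.TOOL
import Pool.Agent.Work.MP_db9399_ow_helper21.SYM
import Pool.Agent.Work.MP_db9399_all_helper6.LLLI

/-!
# Block IDL (helper55): independent draws, linear tests
-/

set_option autoImplicit false

namespace Pool.Agent.Work.MP_db9399_oc.helper55

open Finset Classical
open Pool.Agent.Work.MP_db9399_all (pr DepOnI)
open Pool.Agent.Work.MP_db9399_en (ex mg sum_mg up_aux ex_nonneg ex_mono)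
open Pool.Agent.Work.MP_db9399_cg.helper68 (pr_nonneg pr_zero pr_mono ex_coord pr_ex')

universe u

/-! ## remainders -/

theorem sum_mod (q c : ℕ) (φ : ℕ → ℝ) :
    ∑ x ∈ range (q * c), φ (x % c) = q * ∑ a ∈ range c, φ a := by
  induction q with
  | zero => simp
  | succ q ih =>
    rw [Nat.succ_mul, sum_range_add, ih]
    have h : ∑ x ∈ range c, φ ((q * c + x) % c) = ∑ a ∈ range c, φ a := by
      refine sum_congr rfl fun x hx => ?_
      rw [Nat.mul_add_mod', Nat.mod_eq_of_lt (mem_range.1 hx)]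
    rw [h]
    push_cast
    ring

theorem avg_mod {M c : ℕ} (hM : 0 < M) (hc : c ∣ M) (φ : ℕ → ℝ) :
    (∑ x : Fin M, φ ((x : ℕ) % c)) / M = (∑ a ∈ range c, φ a) / c := by
  obtain ⟨q, rfl⟩ := hc
  have h1 : 0 < c := Nat.pos_of_mul_pos_right hM
  have h2 : 0 < q := Nat.pos_of_mul_pos_left hM
  have h3 : ∑ x : Fin (c * q), φ ((x : ℕ) % c) = q * ∑ a ∈ range c, φ a := by
    rw [Fin.sum_univ_eq_sum_range (fun x => φ (x % c)) (c * q), Nat.mul_comm c q, sum_mod]
  rw [h3]
  have h1' : (c : ℝ) ≠ 0 := by exact_mod_cast h1.ne'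
  have h2' : (q : ℝ) ≠ 0 := by exact_mod_cast h2.ne'
  push_cast
  field_simp

/-! ## one test -/

section one

variable {I : Type u} [Fintype I] {M : ℕ}

/-- the point of the random function -/
def pt (m : I → ℕ) (f : I → Fin M) : I → ℕ := fun i => (f i : ℕ) % m i

omit [Fintype I] in
theorem pt_lt (m : I → ℕ) (hm : ∀ i, 0 < m i) (f : I → Fin M) (i : I) : pt m f i < m i :=
  Nat.mod_lt _ (hm i)

/-- the test fails -/
def Fl (δ L : ℝ) (m : I → ℕ) (A : Finset I) (w : (I → ℕ) → I → ℝ) (μ W : ℝ) (x : I → ℕ) : Prop :=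
  ¬ ((mn m A w x ≤ μ → ∑ i ∈ A, w x i ≤ (1 + δ) * μ + W * L) ∧
    (μ ≤ mn m A w x → (1 - δ) * μ - W * L ≤ ∑ i ∈ A, w x i))

theorem pr_fix (hM : 0 < M) (A : Finset I) (E : (I → Fin M) → Prop) (p : ℝ)
    (h : ∀ b : I → Fin M, pr (fun a => E (mg A a b)) ≤ p) : pr E ≤ p := by
  have hN : 0 < (Fintype.card (I → Fin M) : ℝ) := MP_db9399_en.card_pos hM
  have e : ∀ F : (I → Fin M) → Prop, ((univ.filter F).card : ℝ) =
      ∑ a, (if F a then (1 : ℝ) else 0) := by
    intro F
    rw [sum_boole]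
  have h1 : ((Fintype.card (I → Fin M) : ℕ) : ℝ) * ∑ a, (if E a then (1 : ℝ) else 0) =
      ∑ b, ∑ a, (if E (mg A a b) then (1 : ℝ) else 0) := by
    rw [← MP_db9399_en.sum_fst (fun a => if E a then (1 : ℝ) else 0),
      sum_mg A (fun a _ => if E a then (1 : ℝ) else 0), sum_comm]
  have h2 : ∀ b : I → Fin M, ∑ a, (if E (mg A a b) then (1 : ℝ) else 0) ≤
      p * (Fintype.card (I → Fin M) : ℕ) := by
    intro b
    have h3 := h b
    rw [pr, div_le_iff₀ hN, e] at h3
    exact h3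
  have h4 := sum_le_sum fun b (_ : b ∈ (univ : Finset (I → Fin M))) => h2 b
  rw [← h1, sum_const, card_univ, nsmul_eq_mul] at h4
  rw [pr, div_le_iff₀ hN, e]
  exact le_of_mul_le_mul_left h4 hN

omit [Fintype I] in
theorem mn_congr {m : I → ℕ} {A S : Finset I} {w : (I → ℕ) → I → ℝ}
    (hdep : ∀ i ∈ A, ∀ x y : I → ℕ, x i = y i → (∀ j ∈ S \ A, x j = y j) → w x i = w y i)
    {x y : I → ℕ} (h : ∀ j ∈ S \ A, x j = y j) : mn m A w x = mn m A w y := by
  unfold mn
  refine sum_congr rfl fun i hi => ?_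
  congr 1
  refine sum_congr rfl fun a _ => ?_
  refine hdep i hi _ _ (by simp) fun j hj => ?_
  have hne : j ≠ i := fun he => (mem_sdiff.1 hj).2 (he ▸ hi)
  rw [Function.update_of_ne hne, Function.update_of_ne hne]
  exact h j hj

theorem pr_Fl (δ L : ℝ) (hδ : 0 < δ) (hδ1 : δ ≤ 1) (m : I → ℕ) (hm : ∀ i, 0 < m i)
    (hM : 0 < M) (hd : ∀ i, m i ∣ M) (A S : Finset I) (w : (I → ℕ) → I → ℝ) (μ W : ℝ)
    (w0 : ∀ x, (∀ j, x j < m j) → ∀ i ∈ A, 0 ≤ w x i)
    (wW : ∀ x, (∀ j, x j < m j) → ∀ i ∈ A, w x i ≤ W) (W0 : 0 ≤ W)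
    (hdep : ∀ i ∈ A, ∀ x y : I → ℕ, x i = y i → (∀ j ∈ S \ A, x j = y j) → w x i = w y i) :
    pr (fun f : I → Fin M => Fl δ L m A w μ W (pt m f)) ≤ 2 * Real.exp (-(δ * L)) := by
  refine pr_fix hM A _ _ fun b => ?_
  set xb : I → ℕ := pt m b with hxb
  -- the independent variables
  set X : I → (I → Fin M) → ℝ := fun i a => w (Function.update xb i ((a i : ℕ) % m i)) i with hX
  have hlt : ∀ i c, c < m i → ∀ j, Function.update xb i c j < m j := by
    intro i c hc j
    by_cases h : j = i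
    · subst h
      simpa using hc
    · rw [Function.update_of_ne h]
      exact pt_lt m hm b j
  have hXd : ∀ i ∈ A, DepOnI ({i} : Finset I) (X i) := by
    intro i _ f g hfg
    simp only [hX]
    rw [hfg i (mem_singleton_self i)]
  have hXdis : ∀ i ∈ A, ∀ i' ∈ A, i ≠ i' → Disjoint ({i} : Finset I) {i'} := fun i _ i' _ h =>
    disjoint_singleton.2 h
  have hX0 : ∀ i ∈ A, ∀ ω, 0 ≤ X i ω := fun i hi ω =>
    w0 _ (hlt i _ (Nat.mod_lt _ (hm i))) i hi
  have hXW : ∀ i ∈ A, ∀ ω, X i ω ≤ W := fun i hi ω =>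
    wW _ (hlt i _ (Nat.mod_lt _ (hm i))) i hi
  have hex : ∑ i ∈ A, ex (X i) = mn m A w xb := by
    unfold mn
    refine sum_congr rfl fun i _ => ?_
    have h1 := ex_coord (M := M) i (fun c : Fin M => w (Function.update xb i ((c : ℕ) % m i)) i)
    have h2 := avg_mod hM (hd i) (fun c => w (Function.update xb i c) i)
    simp only [hX]
    exact h1.trans h2
  have hmn : ∀ a : I → Fin M, mn m A w (pt m (mg A a b)) = mn m A w xb := by
    intro a
    refine mn_congr hdep fun j hj => ?_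
    simp only [pt, mg, if_neg (mem_sdiff.1 hj).2, hxb]
  have hsum : ∀ a : I → Fin M, ∑ i ∈ A, w (pt m (mg A a b)) i = ∑ i ∈ A, X i a := by
    intro a
    refine sum_congr rfl fun i hi => ?_
    refine hdep i hi _ _ ?_ fun j hj => ?_
    · simp [pt, mg, hi]
    · have hne : j ≠ i := fun he => (mem_sdiff.1 hj).2 (he ▸ hi)
      rw [Function.update_of_ne hne]
      simp only [pt, mg, if_neg (mem_sdiff.1 hj).2, hxb]
  have hXs : ∀ a, 0 ≤ ∑ i ∈ A, X i a := fun a => sum_nonneg fun i hi => hX0 i hi a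
  have hT0 : 0 ≤ mn m A w xb := by
    rw [← hex]
    exact sum_nonneg fun i hi => ex_nonneg (hX0 i hi)
  have hex0 : (0 : ℝ) < Real.exp (-(δ * L)) := Real.exp_pos _
  rcases W0.eq_or_lt with hW | hW
  · -- no weight
    have hz : ∀ a, ∑ i ∈ A, X i a = 0 := fun a => by
      refine le_antisymm (sum_nonpos fun i hi => ?_) (hXs a)
      rw [hW]
      exact hXW i hi a
    have hm0 : mn m A w xb = 0 := by
      rw [← hex]
      refine le_antisymm (sum_nonpos fun i hi => ?_) (sum_nonneg fun i hi => ex_nonneg (hX0 i hi))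
      have h1 : ex (X i) ≤ ex (fun _ : I → Fin M => (0 : ℝ)) := ex_mono hM fun ω => by
        rw [hW]
        exact hXW i hi ω
      simpa [ex] using h1
    rw [pr_zero]
    · positivity
    · intro a ha
      refine ha ⟨fun h => ?_, fun h => ?_⟩
      · rw [hsum, hz, ← hW, zero_mul, add_zero]
        rw [hmn, hm0] at h
        positivity
      · rw [hsum, hz, ← hW, zero_mul, sub_zero]
        rw [hmn, hm0] at h
        exact mul_nonpos_of_nonneg_of_nonpos (by linarith) h
  · have hW' : W ≠ 0 := hW.ne'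
    have hl1 : |δ / W| * W ≤ 1 := by
      rw [abs_of_pos (div_pos hδ hW), div_mul_cancel₀ _ hW']
      exact hδ1
    have hl2 : |-(δ / W)| * W ≤ 1 := by
      rw [abs_neg]
      exact hl1
    have hp : 0 < δ / W := div_pos hδ hW
    -- upper tail
    have hup : pr (fun a : I → Fin M => mn m A w xb ≤ μ ∧
        (1 + δ) * μ + W * L < ∑ i ∈ A, X i a) ≤ Real.exp (-(δ * L)) := by
      by_cases hc : mn m A w xb ≤ μ
      · have h1 := up_aux hM A (fun i => ({i} : Finset I)) X hXd hXdis hX0 hXW hl1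
          ((1 + δ) * μ + W * L)
        refine (pr_mono (F := fun a : I → Fin M => δ / W * ((1 + δ) * μ + W * L) ≤
          δ / W * ∑ i ∈ A, X i a) fun a ha => mul_le_mul_of_nonneg_left ha.2.le hp.le).trans
          (h1.trans (Real.exp_le_exp.2 ?_))
        rw [hex]
        have h2 : (δ / W + (δ / W) ^ 2 * W) * mn m A w xb ≤ (δ / W + (δ / W) ^ 2 * W) * μ :=
          mul_le_mul_of_nonneg_left hc (by positivity)
        have h3 : (δ / W + (δ / W) ^ 2 * W) * μ - δ / W * ((1 + δ) * μ + W * L) = -(δ * L) := by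
          field_simp
          ring
        linarith
      · rw [pr_zero fun a ha => hc ha.1]
        exact hex0.le
    have hlow : pr (fun a : I → Fin M => μ ≤ mn m A w xb ∧
        ∑ i ∈ A, X i a < (1 - δ) * μ - W * L) ≤ Real.exp (-(δ * L)) := by
      by_cases hc : μ ≤ mn m A w xb
      · have h1 := up_aux hM A (fun i => ({i} : Finset I)) X hXd hXdis hX0 hXW hl2
          ((1 - δ) * μ - W * L)
        refine (pr_mono (F := fun a : I → Fin M => -(δ / W) * ((1 - δ) * μ - W * L) ≤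
          -(δ / W) * ∑ i ∈ A, X i a) fun a ha => ?_).trans
          (h1.trans (Real.exp_le_exp.2 ?_))
        · have := mul_le_mul_of_nonneg_left ha.2.le hp.le
          simp only [neg_mul]
          linarith
        rw [hex]
        have h2 : (δ / W - (δ / W) ^ 2 * W) * μ ≤ (δ / W - (δ / W) ^ 2 * W) * mn m A w xb := by
          refine mul_le_mul_of_nonneg_left hc ?_
          have h4 : δ / W - (δ / W) ^ 2 * W = δ / W * (1 - δ) := by
            field_simp
          rw [h4]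
          exact mul_nonneg hp.le (by linarith)
        have h3 : (-(δ / W) + (-(δ / W)) ^ 2 * W) * mn m A w xb =
            -((δ / W - (δ / W) ^ 2 * W) * mn m A w xb) := by ring
        have h5 : -((δ / W - (δ / W) ^ 2 * W) * μ) - -(δ / W) * ((1 - δ) * μ - W * L) =
            -(δ * L) := by
          field_simp
          ring
        rw [h3]
        linarith
      · rw [pr_zero fun a ha => hc ha.1]
        exact hex0.le
    have h1 := pr_ex' (univ : Finset Bool) (fun (s : Bool) (a : I → Fin M) => if s then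
      (mn m A w xb ≤ μ ∧ (1 + δ) * μ + W * L < ∑ i ∈ A, X i a) else
      (μ ≤ mn m A w xb ∧ ∑ i ∈ A, X i a < (1 - δ) * μ - W * L))
      (fun a => Fl δ L m A w μ W (pt m (mg A a b))) (by
        intro a ha
        unfold Fl at ha
        rw [hmn, hsum] at ha
        by_cases h : mn m A w xb ≤ μ ∧ (1 + δ) * μ + W * L < ∑ i ∈ A, X i a
        · exact ⟨true, mem_univ _, by simpa using h⟩
        · refine ⟨false, mem_univ _, ?_⟩
          simp only [Bool.false_eq_true, if_false]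
          by_contra h2
          refine ha ⟨fun h3 => ?_, fun h3 => ?_⟩
          · by_contra h4
            exact h ⟨h3, not_le.1 h4⟩
          · by_contra h4
            exact h2 ⟨h3, not_le.1 h4⟩)
    refine h1.trans ?_
    rw [Fintype.sum_bool]
    simp only [Bool.false_eq_true, if_false, if_true]
    linarith

end one

theorem fun_lim (n : ℕ) (δ r : ℝ) (hδ : 0 < δ) : ∃ d0 : ℕ, ∀ d : ℕ, d0 ≤ d →
    16 * (2 * Real.exp (-(δ * (Real.log d) ^ 2))) * ((d : ℝ) ^ r + 1) *
      (n * (d : ℝ) ^ r + 1) ≤ 1 := by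
  have h1 : Filter.Tendsto (fun d : ℕ => Real.log d) Filter.atTop Filter.atTop :=
    Real.tendsto_log_atTop.comp tendsto_natCast_atTop_atTop
  have hlim : ∀ᶠ d : ℕ in Filter.atTop, 16 * (2 * Real.exp (-(δ * (Real.log d) ^ 2))) *
      ((d : ℝ) ^ r + 1) * (n * (d : ℝ) ^ r + 1) ≤ 1 := by
    filter_upwards [h1.eventually_ge_atTop ((2 * |r| + 1) / δ), h1.eventually_ge_atTop 1,
      h1.eventually_ge_atTop (64 * ((n : ℝ) + 1)),
      (tendsto_natCast_atTop_atTop (R := ℝ)).eventually_ge_atTop 1] with d h2 h3 h4 h5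
    have hd : (0 : ℝ) < d := by linarith
    have h6 : (d : ℝ) ^ r ≤ (d : ℝ) ^ |r| := Real.rpow_le_rpow_of_exponent_le h5 (le_abs_self r)
    have h7 : 1 ≤ (d : ℝ) ^ |r| := Real.one_le_rpow h5 (abs_nonneg r)
    have h8 : (d : ℝ) ^ r + 1 ≤ 2 * (d : ℝ) ^ |r| := by linarith
    have h9 : (n : ℝ) * (d : ℝ) ^ r + 1 ≤ ((n : ℝ) + 1) * (d : ℝ) ^ |r| := by
      have := mul_le_mul_of_nonneg_left h6 (Nat.cast_nonneg n)
      linarith
    have h10 : 0 ≤ (d : ℝ) ^ r := Real.rpow_nonneg hd.le r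
    have h11 : Real.exp (-(δ * (Real.log d) ^ 2)) * ((d : ℝ) ^ |r| * (d : ℝ) ^ |r|) ≤
        Real.exp (-Real.log d) := by
      rw [← Real.rpow_add hd, Real.rpow_def_of_pos hd, ← Real.exp_add]
      refine Real.exp_le_exp.2 ?_
      have h12 : (2 * |r| + 1) ≤ δ * Real.log d := by
        rw [div_le_iff₀ hδ] at h2
        linarith
      have h13 := mul_le_mul_of_nonneg_right h12 (by linarith : (0 : ℝ) ≤ Real.log d)
      nlinarith
    have h14 : Real.exp (-Real.log d) = 1 / d := by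
      rw [Real.exp_neg, Real.exp_log hd, one_div]
    have h15 : Real.log d ≤ d := by
      have := Real.log_le_sub_one_of_pos hd
      linarith
    have h16 : 64 * ((n : ℝ) + 1) ≤ d := h4.trans h15
    calc 16 * (2 * Real.exp (-(δ * (Real.log d) ^ 2))) * ((d : ℝ) ^ r + 1) *
        (n * (d : ℝ) ^ r + 1)
        ≤ 16 * (2 * Real.exp (-(δ * (Real.log d) ^ 2))) * (2 * (d : ℝ) ^ |r|) *
          (((n : ℝ) + 1) * (d : ℝ) ^ |r|) := by
          refine mul_le_mul (mul_le_mul_of_nonneg_left h8 (by positivity)) h9 (by positivity)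
            (by positivity)
      _ = 64 * ((n : ℝ) + 1) * (Real.exp (-(δ * (Real.log d) ^ 2)) *
          ((d : ℝ) ^ |r| * (d : ℝ) ^ |r|)) := by ring
      _ ≤ 64 * ((n : ℝ) + 1) * (1 / d) := by
          rw [← h14]
          exact mul_le_mul_of_nonneg_left h11 (by positivity)
      _ ≤ 1 := by
          rw [mul_one_div, div_le_one hd]
          exact h16
  obtain ⟨d0, hd0⟩ := Filter.eventually_atTop.1 hlim
  exact ⟨d0, hd0⟩

/-- **Block IDL.** -/
theorem stmt_IDL : Stmt_IDL.{u} := by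
  intro n δ r hδ hδ1 _
  obtain ⟨d0, hd0⟩ := fun_lim n δ r hδ
  refine ⟨d0, ?_⟩
  intro I _ d m P hd hm hP
  choose K hK S A w μ W hT hPx using hP
  set M : ℕ := ∏ i, m i with hM
  have hMp : 0 < M := prod_pos fun i _ => hm i
  have hdv : ∀ i, m i ∣ M := fun i => dvd_prod_of_mem m (mem_univ i)
  have hB0 : (0 : ℝ) ≤ (d : ℝ) ^ r := Real.rpow_nonneg (Nat.cast_nonneg d) r
  obtain ⟨f, hf⟩ := MP_db9399_ow.helper21.stmt_SYM MP_db9399_all.stmt_LLLI I M (Σ j, K j)
    (fun k => S k.1 k.2)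
    (fun k f => Fl δ ((Real.log d) ^ 2) m (A k.1 k.2) (w k.1 k.2) (μ k.1 k.2) (W k.1 k.2) (pt m f))
    (2 * Real.exp (-(δ * (Real.log d) ^ 2))) ((d : ℝ) ^ r) (n * (d : ℝ) ^ r) hMp hB0
    (mul_nonneg (Nat.cast_nonneg n) hB0) (by
      rintro ⟨j, k⟩ f g hfg
      simp only at hfg ⊢
      have h1 : ∀ i ∈ S j k, pt m f i = pt m g i := fun i hi => by
        simp only [pt, hfg i hi]
      have h2 : mn m (A j k) (w j k) (pt m f) = mn m (A j k) (w j k) (pt m g) :=
        mn_congr ((hT j).dep k) fun i hi => h1 i (mem_sdiff.1 hi).1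
      have h3 : ∑ i ∈ A j k, w j k (pt m f) i = ∑ i ∈ A j k, w j k (pt m g) i :=
        sum_congr rfl fun i hi => (hT j).dep k i hi _ _ (h1 i ((hT j).AS k hi))
          fun i' hi' => h1 i' (mem_sdiff.1 hi').1
      unfold Fl
      rw [h2, h3])
    (fun k => (hT k.1).Sc k.2) (by
      intro i
      have h1 : (univ.filter fun k : Σ j, K j => i ∈ S k.1 k.2) =
          univ.sigma fun j => univ.filter fun k : K j => i ∈ S j k := by
        ext ⟨j, k⟩
        simp
      rw [h1, card_sigma]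
      push_cast
      refine (sum_le_sum fun j _ => (hT j).Kc i).trans (le_of_eq ?_)
      rw [sum_const, card_univ, Fintype.card_fin, nsmul_eq_mul])
    (by positivity) (fun k => pr_Fl δ _ hδ hδ1 m hm hMp hdv _ (S k.1 k.2) _ _ _
      ((hT k.1).w0 k.2) ((hT k.1).wW k.2) ((hT k.1).W0 k.2) ((hT k.1).dep k.2)) (hd0 d hd)
  refine ⟨pt m f, pt_lt m hm f, fun j => hPx j _ (pt_lt m hm f) fun k => ?_⟩
  exact not_not.1 (hf ⟨j, k⟩)

end Pool.Agent.Work.MP_db9399_oc.helper55
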