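import Pool.Agent.Work.MP_db9399_oc_helper55.IDL
import Pool.Agent.Work.MP_db9399_iv_helper38.RLC

/-!
# Block RCH (helper55): random choice from lists with conflicts, weighted tests
-/

set_option autoImplicit false

namespace Pool.Agent.Work.MP_db9399_oc.helper55

open Finset Classical
open Pool.Agent.Work.MP_db9399_all (pr DepOnI PackI stmt_LLLI)
open Pool.Agent.Work.MP_db9399_cg.helper68 (pr_nonneg pr_mono pr_ex' packI_one)
open Pool.Agent.Work.MP_db9399_iv_helper38.RLC (pr_all pack_test)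

universe u

/-- enumeration of a finite set -/
theorem exists_enum {β : Type u} [Nonempty β] (L : Finset β) : ∃ g : ℕ → β,
    ∀ φ : β → ℝ, ∑ a ∈ range L.card, φ (g a) = ∑ y ∈ L, φ y := by
  have e := L.equivFin
  refine ⟨fun a => if h : a < L.card then (e.symm ⟨a, h⟩).1 else Classical.arbitrary β,
    fun φ => ?_⟩
  rw [← Fin.sum_univ_eq_sum_range
    (fun a => φ (if h : a < L.card then (e.symm ⟨a, h⟩).1 else Classical.arbitrary β)) L.card]
  have h1 : ∀ a : Fin L.card, φ (if h : (a : ℕ) < L.card then (e.symm ⟨a, h⟩).1 else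
      Classical.arbitrary β) = φ (e.symm a).1 := fun a => by
    rw [dif_pos a.2]
  rw [sum_congr rfl fun a _ => h1 a, Equiv.sum_comp e.symm (fun y : L => φ y.1),
    sum_coe_sort L φ]

/-- uniform choice from a list by means of a number below a multiple of its length -/
theorem exists_draw {β : Type u} [Nonempty β] (L : Finset β) (hL : L.Nonempty) (M : ℕ)
    (hM : 0 < M) (hd : L.card ∣ M) : ∃ e : Fin M → β, (∀ x, e x ∈ L) ∧
      ∀ φ : β → ℝ, (∑ x, φ (e x)) / M = (∑ y ∈ L, φ y) / L.card := by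
  obtain ⟨g, hg⟩ := exists_enum L
  have hc := hL.card_pos
  refine ⟨fun x => g ((x : ℕ) % L.card), fun x => ?_, fun φ => ?_⟩
  · by_contra hx
    have h1 := hg (fun y => if y ∈ L then 0 else 1)
    rw [sum_congr rfl (g := fun _ => (0 : ℝ)) (fun y hy => if_pos hy), sum_const_zero] at h1
    have h2 := (sum_eq_zero_iff_of_nonneg (fun a _ => by split_ifs <;> norm_num)).1 h1
      ((x : ℕ) % L.card) (mem_range.2 (Nat.mod_lt _ hc))
    rw [if_neg hx] at h2
    exact one_ne_zero h2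
  · rw [avg_mod hM hd (fun a => φ (g a)), hg]

theorem pow2_sum (n : ℕ) : ∑ l ∈ range n, (2 : ℝ) ^ (l + 1) ≤ 2 * 2 ^ n := by
  induction n with
  | zero => simp
  | succ n ih =>
    rw [sum_range_succ]
    calc _ ≤ 2 * 2 ^ n + (2 : ℝ) ^ (n + 1) := by linarith
      _ = 2 * 2 ^ (n + 1) := by ring

/-- conflicts of two variables -/
theorem pack_pair {J : Type u} [Fintype J] {M : ℕ} (hM : 0 < M) (x y : J) (hxy : x ≠ y)
    (R : Fin M → Fin M → Prop) (p : ℝ)
    (hp : (∑ a, ((univ.filter fun b => R a b).card : ℝ) / M) / M ≤ p) :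
    PackI (1 / 4) {x, y} (p * Real.exp 1) (fun f => ¬ R (f x) (f y)) := by
  have hM' : (0 : ℝ) < M := by exact_mod_cast hM
  refine packI_one (p := p) (s := 2) (by norm_num) ?_ ⟨x, mem_insert_self _ _⟩ ?_ ?_ ?_
  · intro f f' hf
    show (¬ R (f x) (f y)) = (¬ R (f' x) (f' y))
    rw [hf x (by simp), hf y (by simp)]
  · rw [card_pair hxy]
    norm_num
  · set B : Fin M → J → Finset (Fin M) := fun a j => if j = x then {a} else
      univ.filter fun b => R a b with hB
    have h1 := pr_ex' (univ : Finset (Fin M))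
      (fun a (f : J → Fin M) => ∀ j ∈ ({x, y} : Finset J), f j ∈ B a j)
      (fun f => ¬ (¬ R (f x) (f y))) (by
        intro f hf
        refine ⟨f x, mem_univ _, ?_⟩
        intro j hj
        rw [mem_insert, mem_singleton] at hj
        rcases hj with rfl | rfl
        · simp [hB]
        · simp only [hB]
          rw [if_neg hxy.symm, mem_filter]
          exact ⟨mem_univ _, not_not.1 hf⟩)
    refine h1.trans (le_trans (le_of_eq ?_) hp)
    rw [sum_div]
    refine sum_congr rfl fun a _ => ?_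
    rw [pr_all hM, prod_pair hxy]
    have h3 : (B a x).card = 1 := by simp [hB]
    have h4 : B a y = univ.filter fun b => R a b := by
      simp only [hB]
      rw [if_neg hxy.symm]
    rw [h3, h4, Nat.cast_one]
    ring
  · have : 2 * (1 / 4 : ℝ) * 2 = 1 := by norm_num
    rw [this]

/-! ## conflicts -/

section cq
variable {I β : Type u}

/-- probability of a conflict -/
noncomputable def cq (L : I → Finset β) (cf : I → β → I → β → Prop) (i i' : I) : ℝ :=
  (∑ y ∈ L i, (((L i').filter (fun y' => cf i y i' y')).card : ℝ) / (L i').card) / (L i).card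

theorem cq_nonneg (L : I → Finset β) (cf : I → β → I → β → Prop) (i i' : I) : 0 ≤ cq L cf i i' :=
  div_nonneg (sum_nonneg fun _ _ => div_nonneg (Nat.cast_nonneg _) (Nat.cast_nonneg _))
    (Nat.cast_nonneg _)

theorem cq_eq (L : I → Finset β) (cf : I → β → I → β → Prop) (a b : I) :
    cq L cf a b = ((((L a) ×ˢ (L b)).filter fun z => cf a z.1 b z.2).card : ℝ) /
        ((L a).card * (L b).card) := by
  have h2 : ((((L a) ×ˢ (L b)).filter fun z => cf a z.1 b z.2).card : ℝ) =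
      ∑ y ∈ L a, (((L b).filter fun y' => cf a y b y').card : ℝ) := by
    rw [← sum_boole, sum_product]
    refine sum_congr rfl fun y _ => ?_
    rw [sum_boole]
  rw [h2, cq, ← sum_div, div_div, mul_comm ((L b).card : ℝ)]

theorem cq_symm (L : I → Finset β) (cf : I → β → I → β → Prop)
    (hsym : ∀ i y i' y', cf i y i' y' → cf i' y' i y) (i i' : I) :
    cq L cf i i' = cq L cf i' i := by
  rw [cq_eq, cq_eq, mul_comm ((L i).card : ℝ)]
  congr 1
  have h3 : (((L i) ×ˢ (L i')).filter fun z => cf i z.1 i' z.2).card =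
      (((L i') ×ˢ (L i)).filter fun z => cf i' z.1 i z.2).card := by
    refine card_bij (fun z _ => (z.2, z.1)) ?_ ?_ ?_
    · rintro ⟨a, b⟩ hz
      simp only [mem_filter, mem_product] at hz ⊢
      exact ⟨⟨hz.1.2, hz.1.1⟩, hsym _ _ _ _ hz.2⟩
    · rintro ⟨a, b⟩ _ ⟨a', b'⟩ _ h
      simp only [Prod.mk.injEq] at h ⊢
      exact ⟨h.2, h.1⟩
    · rintro ⟨a, b⟩ hz
      refine ⟨(b, a), ?_, rfl⟩
      simp only [mem_filter, mem_product] at hz ⊢
      exact ⟨⟨hz.1.2, hz.1.1⟩, hsym _ _ _ _ hz.2⟩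
  exact congrArg _ h3

theorem cq_sum [Fintype I] (L : I → Finset β) (cf : I → β → I → β → Prop)
    (hL : ∀ i, (L i).Nonempty) (hcf : ∀ i, ∀ y ∈ L i,
      ∑ i', (((L i').filter (fun y' => cf i y i' y')).card : ℝ) / (L i').card ≤ 1 / 40) (i : I) :
    ∑ i', cq L cf i i' ≤ 1 / 40 := by
  have hc : (0 : ℝ) < (L i).card := by exact_mod_cast (hL i).card_pos
  unfold cq
  rw [← sum_div, sum_comm, div_le_iff₀ hc]
  refine (sum_le_sum fun y hy => hcf i y hy).trans ?_
  rw [sum_const, nsmul_eq_mul, mul_comm]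

end cq

/-! ## levels -/

section levels
variable {I β : Type u}

/-- the level `l` of the weight `w` in the list of `i` -/
noncomputable def lv (L : I → Finset β) (w : I → β → ℕ) (l : ℕ) (i : I) : Finset β :=
  (L i).filter fun y => w i y ≠ 0 ∧ Nat.log 2 (w i y) = l

/-- mean number of hits of the level `l` -/
noncomputable def nu [Fintype I] (L : I → Finset β) (w : I → β → ℕ) (l : ℕ) : ℝ :=
  ∑ i, ((lv L w l i).card : ℝ) / (L i).card

theorem nu_nonneg [Fintype I] (L : I → Finset β) (w : I → β → ℕ) (l : ℕ) : 0 ≤ nu L w l :=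
  sum_nonneg fun _ _ => div_nonneg (Nat.cast_nonneg _) (Nat.cast_nonneg _)

theorem sum_lv (L : I → Finset β) (w : I → β → ℕ) (n : ℕ) (i : I) :
    ∑ l ∈ range n, (2 : ℝ) ^ l * ((lv L w l i).card : ℝ) ≤ ∑ y ∈ L i, (w i y : ℝ) := by
  have h2 : ∀ l ∈ range n, (2 : ℝ) ^ l * ((lv L w l i).card : ℝ) ≤
      ∑ y ∈ ((L i).filter fun y => w i y ≠ 0).filter (fun y => Nat.log 2 (w i y) = l),
        (w i y : ℝ) := by
    intro l _
    rw [filter_filter]
    calc (2 : ℝ) ^ l * ((lv L w l i).card : ℝ)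
        = ∑ _y ∈ (L i).filter (fun y => w i y ≠ 0 ∧ Nat.log 2 (w i y) = l), (2 : ℝ) ^ l := by
          rw [sum_const, nsmul_eq_mul, mul_comm, lv]
      _ ≤ _ := by
          refine sum_le_sum fun y hy => ?_
          have h3 := (mem_filter.1 hy).2
          have h4 : 2 ^ Nat.log 2 (w i y) ≤ w i y := Nat.pow_log_le_self 2 h3.1
          rw [h3.2] at h4
          exact_mod_cast h4
  refine (sum_le_sum h2).trans ?_
  have h5 : ∑ l ∈ range n, ∑ y ∈ ((L i).filter fun y => w i y ≠ 0).filter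
      (fun y => Nat.log 2 (w i y) = l), (w i y : ℝ) ≤
      ∑ y ∈ (L i).filter (fun y => w i y ≠ 0), (w i y : ℝ) := by
    rw [← sum_biUnion]
    · refine sum_le_sum_of_subset_of_nonneg ?_ fun _ _ _ => Nat.cast_nonneg _
      intro y hy
      obtain ⟨l, _, hl⟩ := mem_biUnion.1 hy
      exact (mem_filter.1 hl).1
    · intro l _ l' _ hne
      rw [Function.onFun, Finset.disjoint_left]
      intro y hy hy'
      exact hne ((mem_filter.1 hy).2.symm.trans (mem_filter.1 hy').2)
  exact h5.trans (sum_le_sum_of_subset_of_nonneg (filter_subset _ _)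
    fun _ _ _ => Nat.cast_nonneg _)

theorem sum_nu [Fintype I] (L : I → Finset β) (hL : ∀ i, (L i).Nonempty) (w : I → β → ℕ) (n : ℕ) :
    ∑ l ∈ range n, (2 : ℝ) ^ l * nu L w l ≤ ∑ i, (∑ y ∈ L i, (w i y : ℝ)) / (L i).card := by
  unfold nu
  have h1 : ∀ l ∈ range n, (2 : ℝ) ^ l * ∑ i, ((lv L w l i).card : ℝ) / (L i).card =
      ∑ i, (2 : ℝ) ^ l * (((lv L w l i).card : ℝ) / (L i).card) := fun l _ => mul_sum _ _ _
  rw [sum_congr rfl h1, sum_comm]
  refine sum_le_sum fun i _ => ?_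
  have hc : (0 : ℝ) < (L i).card := by exact_mod_cast (hL i).card_pos
  have h0 : ∀ l ∈ range n, (2 : ℝ) ^ l * (((lv L w l i).card : ℝ) / (L i).card) =
      ((2 : ℝ) ^ l * ((lv L w l i).card : ℝ)) / (L i).card := fun l _ =>
    (mul_div_assoc _ _ _).symm
  rw [sum_congr rfl h0, ← sum_div]
  exact div_le_div_of_nonneg_right (sum_lv L w n i) hc.le

theorem sum_levels [Fintype I] (v : I → ℕ) (W : ℕ) (hv : ∀ i, v i ≤ W) :
    ∑ i, (v i : ℝ) ≤ ∑ l ∈ range (Nat.log 2 W + 1),
      (2 : ℝ) ^ (l + 1) * ((univ.filter fun i => v i ≠ 0 ∧ Nat.log 2 (v i) = l).card : ℝ) := by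
  have h1 : ∑ i, (v i : ℝ) = ∑ i ∈ univ.filter (fun i => v i ≠ 0), (v i : ℝ) := by
    rw [sum_filter]
    refine sum_congr rfl fun z _ => ?_
    split_ifs with h
    · rfl
    · rw [not_ne_iff.1 h, Nat.cast_zero]
  rw [h1, ← sum_fiberwise_of_maps_to (s := univ.filter (fun i => v i ≠ 0))
    (t := range (Nat.log 2 W + 1)) (g := fun i => Nat.log 2 (v i)) (fun i _ => by
      rw [mem_range]
      exact Nat.lt_succ_of_le (Nat.log_mono_right (hv i)))]
  refine sum_le_sum fun l _ => ?_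
  rw [filter_filter]
  calc ∑ i ∈ univ.filter (fun i => v i ≠ 0 ∧ Nat.log 2 (v i) = l),
        (v i : ℝ) ≤ ∑ _i ∈ univ.filter (fun i => v i ≠ 0 ∧ Nat.log 2 (v i) = l),
          (2 : ℝ) ^ (l + 1) := by
        refine sum_le_sum fun i hi => ?_
        have h3 := (mem_filter.1 hi).2.2
        have h4 : v i < 2 ^ (Nat.log 2 (v i)).succ := Nat.lt_pow_succ_log_self (by norm_num) _
        rw [h3] at h4
        exact_mod_cast h4.le
    _ = _ := by
        rw [sum_const, nsmul_eq_mul, mul_comm]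

/-- the total weight of a choice with few hits in every level -/
theorem total [Fintype I] (L : I → Finset β) (hL : ∀ i, (L i).Nonempty) (w : I → β → ℕ) (W : ℕ)
    (μ Λ : ℝ) (hΛ : 0 ≤ Λ) (hμ : ∑ i, (∑ y ∈ L i, (w i y : ℝ)) / (L i).card ≤ μ) (g : I → β)
    (hg : ∀ i, w i (g i) ≤ W)
    (h : ∀ l, l < Nat.log 2 W + 1 → ((univ.filter fun i => w i (g i) ≠ 0 ∧
      Nat.log 2 (w i (g i)) = l).card : ℝ) ≤ Λ + 13 * nu L w l) :
    ∑ i, (w i (g i) : ℝ) ≤ 200 * μ + 200 * W * Λ := by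
  have hμ0 : 0 ≤ μ := le_trans (sum_nonneg fun i _ =>
    div_nonneg (sum_nonneg fun _ _ => Nat.cast_nonneg _) (Nat.cast_nonneg _)) hμ
  rcases Nat.eq_zero_or_pos W with hW0 | hW0
  · -- no weight
    have h1 : ∑ i, (w i (g i) : ℝ) = 0 := by
      refine sum_eq_zero fun i _ => ?_
      have := hg i
      rw [hW0] at this
      rw [Nat.le_zero.1 this, Nat.cast_zero]
    rw [h1]
    positivity
  · have h1 : (2 : ℝ) ^ (Nat.log 2 W + 1) ≤ 2 * W := by
      have h2 : 2 ^ Nat.log 2 W ≤ W := Nat.pow_log_le_self 2 hW0.ne'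
      have h3 : 2 ^ (Nat.log 2 W + 1) ≤ 2 * W := by
        rw [pow_succ]
        omega
      exact_mod_cast h3
    have hWk : (0 : ℝ) ≤ W := Nat.cast_nonneg _
    calc ∑ i, (w i (g i) : ℝ)
        ≤ ∑ l ∈ range (Nat.log 2 W + 1), (2 : ℝ) ^ (l + 1) * (Λ + 13 * nu L w l) :=
          (sum_levels (fun i => w i (g i)) W hg).trans (sum_le_sum fun l hl =>
            mul_le_mul_of_nonneg_left (h l (mem_range.1 hl)) (by positivity))
      _ = Λ * ∑ l ∈ range (Nat.log 2 W + 1), (2 : ℝ) ^ (l + 1) +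
          26 * ∑ l ∈ range (Nat.log 2 W + 1), (2 : ℝ) ^ l * nu L w l := by
          rw [mul_sum, mul_sum, ← sum_add_distrib]
          refine sum_congr rfl fun l _ => ?_
          ring
      _ ≤ Λ * (2 * (2 * W)) + 26 * μ := by
          refine add_le_add (mul_le_mul_of_nonneg_left ?_ hΛ)
            (mul_le_mul_of_nonneg_left ((sum_nu L hL w _).trans hμ) (by norm_num))
          exact (pow2_sum _).trans (mul_le_mul_of_nonneg_left h1 (by norm_num))
      _ ≤ 200 * μ + 200 * W * Λ := by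
          have h5 : 0 ≤ (W : ℝ) * Λ := mul_nonneg hWk hΛ
          linarith

end levels

/-! ## sums over pairs -/

theorem pair_sum {I : Type u} [Fintype I] (q : I → I → ℝ) (hq0 : ∀ i i', 0 ≤ q i i')
    (hqs : ∀ i i', q i i' = q i' i) (y : I) :
    ∑ p : I × I, (if y ∈ (if p.1 ≠ p.2 then ({p.1, p.2} : Finset I) else ∅) then
      (if p.1 ≠ p.2 then q p.1 p.2 else 0) else 0) ≤ 2 * ∑ b, q y b := by
  have e1 : ∀ p : I × I, (if y ∈ (if p.1 ≠ p.2 then ({p.1, p.2} : Finset I) else ∅) then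
      (if p.1 ≠ p.2 then q p.1 p.2 else 0) else 0) ≤
      (if p.1 = y then q p.1 p.2 else 0) + (if p.2 = y then q p.1 p.2 else 0) := by
    intro p
    have h0 : 0 ≤ q p.1 p.2 := hq0 _ _
    by_cases hp : p.1 ≠ p.2
    · rw [if_pos hp, if_pos hp]
      by_cases h2 : p.1 = y
      · rw [if_pos h2]
        by_cases h3 : p.2 = y
        · exact absurd (h2.trans h3.symm) hp
        · rw [if_neg h3, add_zero]
          split_ifs
          · exact le_rfl
          · exact h0
      · rw [if_neg h2, zero_add]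
        by_cases h3 : p.2 = y
        · rw [if_pos h3]
          split_ifs
          · exact le_rfl
          · exact h0
        · rw [if_neg h3, if_neg]
          intro h4
          rw [mem_insert, mem_singleton] at h4
          rcases h4 with h4 | h4
          · exact h2 h4.symm
          · exact h3 h4.symm
    · rw [if_neg hp, if_neg (notMem_empty y)]
      refine add_nonneg ?_ ?_
      · split_ifs
        · exact h0
        · exact le_rfl
      · split_ifs
        · exact h0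
        · exact le_rfl
  refine (sum_le_sum fun p _ => e1 p).trans ?_
  rw [sum_add_distrib, Fintype.sum_prod_type, Fintype.sum_prod_type]
  have h2 : ∑ a : I, ∑ b : I, (if (a, b).1 = y then q (a, b).1 (a, b).2 else 0) =
      ∑ b, q y b := by
    rw [sum_eq_single y]
    · simp
    · intro a _ ha
      simp [ha]
    · intro h
      exact absurd (mem_univ y) h
  have h3 : ∑ a : I, ∑ b : I, (if (a, b).2 = y then q (a, b).1 (a, b).2 else 0) =
      ∑ b, q y b := by
    rw [sum_comm, sum_eq_single y]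
    · simp only [if_true]
      exact sum_congr rfl fun a _ => hqs a y
    · intro a _ ha
      simp [ha]
    · intro h
      exact absurd (mem_univ y) h
  rw [h2, h3]
  linarith

theorem lim_RCH (r : ℝ) : ∃ d0 : ℕ, ∀ d : ℕ, d0 ≤ d → (d : ℝ) ^ r * ((d : ℝ) ^ 2 + 1) *
    Real.exp (-((Real.log d) ^ 2)) ≤ 1 / 10 := by
  have hlim : ∀ᶠ d : ℕ in Filter.atTop, (d : ℝ) ^ r * ((d : ℝ) ^ 2 + 1) *
      Real.exp (-((Real.log d) ^ 2)) ≤ 1 / 10 := by
    have h1 : Filter.Tendsto (fun d : ℕ => Real.log d) Filter.atTop Filter.atTop :=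
      Real.tendsto_log_atTop.comp tendsto_natCast_atTop_atTop
    filter_upwards [h1.eventually_ge_atTop (r + 4), h1.eventually_ge_atTop 0,
      (tendsto_natCast_atTop_atTop (R := ℝ)).eventually_ge_atTop 10] with d h2 h3 h4
    have hd : (0 : ℝ) < d := by linarith
    have h5 : (d : ℝ) ^ 2 + 1 ≤ (d : ℝ) ^ 3 := by
      have h6 : 10 * (d : ℝ) ^ 2 ≤ (d : ℝ) ^ 3 := by
        rw [pow_succ (d : ℝ) 2, mul_comm]
        exact mul_le_mul_of_nonneg_left h4 (by positivity)
      have h7 : (1 : ℝ) ≤ (d : ℝ) ^ 2 := one_le_pow₀ (by linarith)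
      linarith
    have h8 : (d : ℝ) ^ 3 = Real.exp (Real.log d * (3 : ℕ)) := by
      rw [mul_comm, Real.exp_nat_mul, Real.exp_log hd]
    have h9 : Real.exp (-Real.log d) = 1 / d := by
      rw [Real.exp_neg, Real.exp_log hd, one_div]
    calc (d : ℝ) ^ r * ((d : ℝ) ^ 2 + 1) * Real.exp (-((Real.log d) ^ 2))
        ≤ (d : ℝ) ^ r * (d : ℝ) ^ 3 * Real.exp (-((Real.log d) ^ 2)) := by
          refine mul_le_mul_of_nonneg_right (mul_le_mul_of_nonneg_left h5
            (Real.rpow_nonneg hd.le r)) (Real.exp_pos _).le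
      _ ≤ Real.exp (-Real.log d) := by
          rw [Real.rpow_def_of_pos hd, h8, ← Real.exp_add, ← Real.exp_add]
          refine Real.exp_le_exp.2 ?_
          have h10 := mul_le_mul_of_nonneg_right h2 h3
          push_cast
          nlinarith
      _ ≤ 1 / 10 := by
          rw [h9]
          exact one_div_le_one_div_of_le (by norm_num) h4
  obtain ⟨d0, hd0⟩ := Filter.eventually_atTop.1 hlim
  exact ⟨d0, hd0⟩

/-- **Block RCH.** -/
theorem stmt_RCH : Stmt_RCH.{u} := by
  intro r hr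
  obtain ⟨d0, hd0⟩ := lim_RCH r
  refine ⟨d0, ?_⟩
  intro I K β _ _ _ d L cf w W μ hd hL hsym hirr hcf hw hW hS hμ
  have hA := hd0 d hd
  set M : ℕ := ∏ i, (L i).card with hM
  have hMp : 0 < M := prod_pos fun i _ => (hL i).card_pos
  have hM' : (0 : ℝ) < M := by exact_mod_cast hMp
  have hdr : ∀ i, ∃ e : Fin M → β, (∀ x, e x ∈ L i) ∧
      ∀ φ : β → ℝ, (∑ x, φ (e x)) / M = (∑ y ∈ L i, φ y) / (L i).card := fun i =>
    exists_draw (L i) (hL i) M hMp (dvd_prod_of_mem _ (mem_univ i))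
  choose e he hφ using hdr
  -- number of values with a property
  have hcnt : ∀ i (Q : β → Prop), ((univ.filter fun x : Fin M => Q (e i x)).card : ℝ) / M =
      (((L i).filter Q).card : ℝ) / (L i).card := by
    intro i Q
    have h1 := hφ i (fun y => if Q y then 1 else 0)
    rw [sum_boole, sum_boole] at h1
    exact h1
  have hcnt' : ∀ i (Q : β → Prop) (T : Finset (Fin M)) (B : Finset β), (∀ x, x ∈ T ↔ Q (e i x)) →
      (∀ y, y ∈ B ↔ y ∈ L i ∧ Q y) → (T.card : ℝ) / M = (B.card : ℝ) / (L i).card := by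
    intro i Q T B hT hB
    have h1 : T = univ.filter fun x : Fin M => Q (e i x) := by
      ext x
      rw [mem_filter, hT]
      exact ⟨fun h => ⟨mem_univ _, h⟩, fun h => h.2⟩
    have h2 : B = (L i).filter Q := by
      ext y
      rw [mem_filter, hB]
    rw [h1, h2]
    exact hcnt i Q
  -- conflicts
  have hpk : ∀ i i', i ≠ i' → PackI (1 / 4) {i, i'} (cq L cf i i' * Real.exp 1)
      (fun f : I → Fin M => ¬ cf i (e i (f i)) i' (e i' (f i'))) := by
    intro i i' hne
    refine pack_pair hMp i i' hne (fun a b => cf i (e i a) i' (e i' b)) _ (le_of_eq ?_)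
    have h1 : ∀ a : Fin M, ((univ.filter fun b => cf i (e i a) i' (e i' b)).card : ℝ) / M =
        (((L i').filter fun y' => cf i (e i a) i' y').card : ℝ) / (L i').card := fun a =>
      hcnt i' (fun y' => cf i (e i a) i' y')
    rw [sum_congr rfl fun a _ => h1 a]
    exact hφ i (fun y => (((L i').filter fun y' => cf i y i' y').card : ℝ) / (L i').card)
  -- the levels
  obtain ⟨Bb, hBb⟩ : ∃ Bb : K × ULift.{u} (Fin (d ^ 2 + 1)) → I → Finset (Fin M), ∀ p i x,
      x ∈ Bb p i ↔ e i x ∈ lv L (w p.1) (p.2.down : ℕ) i :=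
    ⟨fun p i => univ.filter fun x => e i x ∈ lv L (w p.1) (p.2.down : ℕ) i, fun p i x => by simp⟩
  have hBc : ∀ p i, ((Bb p i).card : ℝ) / M =
      ((lv L (w p.1) (p.2.down : ℕ) i).card : ℝ) / (L i).card := by
    intro p i
    exact hcnt' i (fun y => y ∈ lv L (w p.1) (p.2.down : ℕ) i) _ _ (fun x => hBb p i x)
      fun y => ⟨fun h => ⟨(mem_filter.1 h).1, h⟩, fun h => h.2⟩
  obtain ⟨S0, hS0⟩ : ∃ S0 : K × ULift.{u} (Fin (d ^ 2 + 1)) → Finset I, ∀ p i,
      i ∈ S0 p ↔ (Bb p i).Nonempty :=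
    ⟨fun p => univ.filter fun i => (Bb p i).Nonempty, fun p i => by simp⟩
  obtain ⟨sq, hsq⟩ : ∃ sq : K × ULift.{u} (Fin (d ^ 2 + 1)) → ℕ, ∀ p, sq p =
      ⌊max ((Real.log d) ^ 2) (13 * nu L (w p.1) (p.2.down : ℕ))⌋₊ + 1 := ⟨_, fun _ => rfl⟩
  have hsq1 : ∀ p, max ((Real.log d) ^ 2) (13 * nu L (w p.1) (p.2.down : ℕ)) ≤ sq p := by
    intro p
    have h1 := (Nat.lt_floor_add_one (max ((Real.log d) ^ 2)
      (13 * nu L (w p.1) (p.2.down : ℕ)))).le
    rw [hsq]
    push_cast
    exact h1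
  have htest : ∀ p, PackI (1 / 4) (S0 p) (Real.exp (-(sq p : ℝ)))
      (fun f => ((S0 p).filter fun i => f i ∈ Bb p i).card < sq p) := by
    intro p
    refine pack_test hMp (S0 p) (Bb p) (sq p) (by rw [hsq]; exact Nat.succ_pos _) ?_
    have h1 : ∑ i ∈ S0 p, ((Bb p i).card : ℝ) ≤ ∑ i, ((Bb p i).card : ℝ) :=
      sum_le_sum_of_subset_of_nonneg (subset_univ _) fun _ _ _ => Nat.cast_nonneg _
    have h2 : ∑ i, ((Bb p i).card : ℝ) = nu L (w p.1) (p.2.down : ℕ) * M := by
      unfold nu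
      rw [sum_mul]
      refine sum_congr rfl fun i _ => ?_
      rw [← hBc p i, div_mul_cancel₀ _ hM'.ne']
    have h3 := (le_max_right ((Real.log d) ^ 2) (13 * nu L (w p.1) (p.2.down : ℕ))).trans (hsq1 p)
    have h4 := mul_le_mul_of_nonneg_right h3 hM'.le
    linarith
  -- local lemma
  obtain ⟨f, hf⟩ := stmt_LLLI I M ((I × I) ⊕ (K × ULift.{u} (Fin (d ^ 2 + 1)))) (1 / 4)
    (Sum.elim (fun p => if p.1 ≠ p.2 then {p.1, p.2} else ∅) S0)
    (Sum.elim (fun p => if p.1 ≠ p.2 then cq L cf p.1 p.2 * Real.exp 1 else 0)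
      fun p => Real.exp (-(sq p : ℝ)))
    (Sum.elim (fun p f => p.1 ≠ p.2 → ¬ cf p.1 (e p.1 (f p.1)) p.2 (e p.2 (f p.2)))
      fun p f => ((S0 p).filter fun i => f i ∈ Bb p i).card < sq p)
    hMp (by norm_num) le_rfl (by
      rintro (p | p)
      · simp only [Sum.elim_inl]
        by_cases hp : p.1 ≠ p.2
        · rw [if_pos hp, if_pos hp]
          obtain ⟨κ, hκ, Q, E, h2, h3, h4, h5, h6⟩ := hpk p.1 p.2 hp
          exact ⟨κ, hκ, Q, E, h2, h3, h4, h5, fun f hf _ => h6 f hf⟩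
        · rw [if_neg hp, if_neg hp]
          refine ⟨PEmpty, inferInstance, fun k => k.elim, fun k => k.elim, fun k => k.elim,
            fun k => k.elim, fun k => k.elim, by simp, fun f _ h => absurd h hp⟩
      · simp only [Sum.elim_inr]
        exact htest p) (by
      intro y
      have h1 := pair_sum (fun i i' => cq L cf i i' * Real.exp 1)
        (fun i i' => mul_nonneg (cq_nonneg _ _ _ _) (Real.exp_pos _).le)
        (fun i i' => by rw [cq_symm L cf hsym]) y
      have h4 : (∑ b, cq L cf y b) * Real.exp 1 ≤ 1 / 40 * 2.7182818286 :=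
        mul_le_mul (cq_sum L cf hL hcf y) Real.exp_one_lt_d9.le (Real.exp_pos _).le (by norm_num)
      rw [← sum_mul] at h1
      have h2 : ∑ p : K × ULift.{u} (Fin (d ^ 2 + 1)),
          (if y ∈ S0 p then Real.exp (-(sq p : ℝ)) else 0) ≤ 1 / 10 := by
        rw [← sum_filter]
        have h3 : ∀ p ∈ univ.filter (fun p => y ∈ S0 p),
            Real.exp (-(sq p : ℝ)) ≤ Real.exp (-(Real.log d) ^ 2) := by
          intro p _
          exact Real.exp_le_exp.2 (neg_le_neg ((le_max_left _ _).trans (hsq1 p)))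
        refine (sum_le_sum h3).trans ?_
        rw [sum_const, nsmul_eq_mul]
        have h4 : univ.filter (fun p => y ∈ S0 p) ⊆
            (univ.filter fun k => ∃ z ∈ L y, w k y z ≠ 0) ×ˢ univ := by
          rintro ⟨k, l⟩ hp
          obtain ⟨x, hx⟩ := (hS0 _ _).1 (mem_filter.1 hp).2
          have h6 := mem_filter.1 ((hBb _ _ _).1 hx)
          exact mem_product.2 ⟨mem_filter.2 ⟨mem_univ _, e y x, h6.1, h6.2.1⟩, mem_univ _⟩
        have h5 := card_le_card h4
        rw [card_product, card_univ, Fintype.card_ulift, Fintype.card_fin] at h5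
        have h6 : ((univ.filter (fun p => y ∈ S0 p)).card : ℝ) ≤
            ((univ.filter fun k => ∃ z ∈ L y, w k y z ≠ 0).card : ℝ) * ((d : ℝ) ^ 2 + 1) := by
          exact_mod_cast h5
        have h7 : ((univ.filter (fun p => y ∈ S0 p)).card : ℝ) ≤
            (d : ℝ) ^ r * ((d : ℝ) ^ 2 + 1) :=
          h6.trans (mul_le_mul_of_nonneg_right (hS y) (by positivity))
        exact (mul_le_mul_of_nonneg_right h7 (Real.exp_pos _).le).trans hA
      have h3 := add_le_add h1 h2
      rw [sum_filter, Fintype.sum_sum_type]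
      simp only [Sum.elim_inl, Sum.elim_inr]
      refine le_trans h3 ?_
      norm_num at h4 ⊢
      linarith)
  refine ⟨fun i => e i (f i), fun i => he i _, ?_, fun k => ?_⟩
  · intro i i' hc
    by_cases h : i = i'
    · subst h
      exact hirr i _ _ hc
    · exact hf (Sum.inl (i, i')) h hc
  refine total L hL (w k) (W k) (μ k) _ (sq_nonneg _) (hμ k) (fun i => e i (f i))
    (fun i => hw k i _ (he i _)) fun l hl => ?_
  have hl' : l < d ^ 2 + 1 := by
    have h1 : Nat.log 2 (W k) ≤ W k := Nat.log_le_self 2 (W k)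
    have := hW k
    omega
  have h1 : ((S0 (k, ⟨⟨l, hl'⟩⟩)).filter fun i => f i ∈ Bb (k, ⟨⟨l, hl'⟩⟩) i).card <
    sq (k, ⟨⟨l, hl'⟩⟩) := hf (Sum.inr (k, ⟨⟨l, hl'⟩⟩))
  have h2 : (univ.filter fun i => w k i (e i (f i)) ≠ 0 ∧ Nat.log 2 (w k i (e i (f i))) = l) ⊆
      (S0 (k, ⟨⟨l, hl'⟩⟩)).filter fun i => f i ∈ Bb (k, ⟨⟨l, hl'⟩⟩) i := by
    intro i hi
    have h3 : f i ∈ Bb (k, ⟨⟨l, hl'⟩⟩) i :=
      (hBb _ _ _).2 (mem_filter.2 ⟨he i _, (mem_filter.1 hi).2⟩)
    exact mem_filter.2 ⟨(hS0 _ _).2 ⟨_, h3⟩, h3⟩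
  have h3 : (univ.filter fun i => w k i (e i (f i)) ≠ 0 ∧
      Nat.log 2 (w k i (e i (f i))) = l).card ≤
      ⌊max ((Real.log d) ^ 2) (13 * nu L (w k) l)⌋₊ := by
    have h4 := card_le_card h2
    rw [hsq] at h1
    exact Nat.le_of_lt_succ (lt_of_le_of_lt h4 h1)
  have h4 : (0 : ℝ) ≤ 13 * nu L (w k) l := mul_nonneg (by norm_num) (nu_nonneg L (w k) l)
  have hlog0 : 0 ≤ (Real.log d) ^ 2 := sq_nonneg _
  calc ((univ.filter fun i => w k i (e i (f i)) ≠ 0 ∧
      Nat.log 2 (w k i (e i (f i))) = l).card : ℝ)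
      ≤ (⌊max ((Real.log d) ^ 2) (13 * nu L (w k) l)⌋₊ : ℝ) := by exact_mod_cast h3
    _ ≤ max ((Real.log d) ^ 2) (13 * nu L (w k) l) := Nat.floor_le (le_max_of_le_left hlog0)
    _ ≤ _ := max_le (by linarith) (by linarith)

end Pool.Agent.Work.MP_db9399_oc.helper55
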